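import Pool.Agent.H23.DF.TargetsL
import Pool.Agent.H26.THC.TR1

/-!
# (CT) the Chinese remainder theorem for Fourier transforms
-/

set_option autoImplicit false
set_option linter.unusedSectionVars false

open NumberField Complex
open scoped nonZeroDivisors

namespace Pool.Agent.H77.DF.CT

open Pool.Agent.H25.HK Pool.Agent.H23.LB Pool.Agent.H23.LC
open Pool.Agent.H28.RC (Rep ft idl)
open Pool.Agent.H26.THC (eps eps_add eps_of_mem smul_mem_FI mul_du)
open Pool.Agent.H26.GLA (fadd fsub)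
open Pool.Agent.H23.DF

variable {K : Type} [Field K] [NumberField K]

private lemma fi_le (I : Ideal (𝓞 K)) (M : FI K) {x : K} (hx : x ∈ (I : FI K) * M) : x ∈ M := by
  have := (mul_le_mul_left ((FractionalIdeal.coeIdeal_le_coeIdeal K).2 (le_top : I ≤ ⊤)) M) hx
  rwa [FractionalIdeal.coeIdeal_top, one_mul] at this

private lemma smul_mem {I : Ideal (𝓞 K)} {M : FI K} {a : 𝓞 K} {x : K} (ha : a ∈ I)
    (hx : x ∈ M) : (a : K) * x ∈ (I : FI K) * M :=
  FractionalIdeal.mul_mem_mul (FractionalIdeal.mem_coeIdeal_of_mem _ ha) hx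

private lemma smul_mem' {I J : Ideal (𝓞 K)} {M : FI K} {a : 𝓞 K} {x : K} (ha : a ∈ I)
    (hx : x ∈ (J : FI K) * M) : (a : K) * x ∈ ((I * J : Ideal (𝓞 K)) : FI K) * M := by
  have h1 := smul_mem ha hx
  rw [← mul_assoc, ← FractionalIdeal.coeIdeal_mul] at h1
  exact h1

/-- sums over representatives -/
private lemma sum_rep {J : Ideal (𝓞 K)} {M : FI K} {X : Finset K} (hX : Rep K J M X) {f : K → ℂ}
    (hper : ∀ x ∈ M, ∀ t ∈ (J : FI K) * M, f (x + t) = f x) {α : Type} (T : Finset α)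
    (u : α → K) (hu : ∀ τ ∈ T, u τ ∈ M)
    (hinj : ∀ τ ∈ T, ∀ τ' ∈ T, u τ - u τ' ∈ (J : FI K) * M → τ = τ')
    (hsur : ∀ x ∈ M, ∃ τ ∈ T, x - u τ ∈ (J : FI K) * M) :
    ∑ x ∈ X, f x = ∑ τ ∈ T, f (u τ) := by
  classical
  have hex : ∀ τ, ∃ x, τ ∈ T → x ∈ X ∧ u τ - x ∈ (J : FI K) * M := by
    intro τ
    by_cases h : τ ∈ T
    · obtain ⟨x, ⟨hx1, hx2⟩, -⟩ := hX.2 (u τ) (hu τ h)
      exact ⟨x, fun _ => ⟨hx1, hx2⟩⟩
    · exact ⟨0, fun h' => absurd h' h⟩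
  choose g hg using hex
  have hfg : ∀ τ ∈ T, f (g τ) = f (u τ) := by
    intro τ hτ
    have h1 := hper (g τ) (hX.1 _ (hg τ hτ).1) _ (hg τ hτ).2
    have e : g τ + (u τ - g τ) = u τ := by ring
    rw [e] at h1
    exact h1.symm
  have himg : T.image g ⊆ X := by
    intro x hx
    obtain ⟨τ, hτ, rfl⟩ := Finset.mem_image.1 hx
    exact (hg τ hτ).1
  calc ∑ x ∈ X, f x = ∑ x ∈ T.image g, f x := by
        refine (Finset.sum_subset himg fun x hx hnot => ?_).symm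
        exfalso
        apply hnot
        obtain ⟨τ, hτ, hτx⟩ := hsur x (hX.1 x hx)
        obtain ⟨x', -, huniq⟩ := hX.2 (u τ) (hu τ hτ)
        have h1 := huniq (g τ) (hg τ hτ)
        have h2 := huniq x ⟨hx, by
          have h3 := Submodule.neg_mem _ hτx
          rw [neg_sub] at h3
          exact h3⟩
        rw [Finset.mem_image]
        exact ⟨τ, hτ, h1.trans h2.symm⟩
    _ = ∑ τ ∈ T, f (g τ) := by
        refine Finset.sum_image fun τ hτ τ' hτ' h => ?_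
        apply hinj τ hτ τ' hτ'
        have h1 := fsub K _ (hg τ hτ).2 (hg τ' hτ').2
        rw [h] at h1
        have e : u τ - g τ' - (u τ' - g τ') = u τ - u τ' := by ring
        rw [e] at h1
        exact h1
    _ = ∑ τ ∈ T, f (u τ) := Finset.sum_congr rfl hfg

/-- two representatives of the same class are equal -/
private lemma rep_eq {J : Ideal (𝓞 K)} {M : FI K} {X : Finset K} (hX : Rep K J M X) {x x' : K}
    (hx : x ∈ X) (hx' : x' ∈ X) (h : x - x' ∈ (J : FI K) * M) : x = x' := by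
  obtain ⟨r, -, huniq⟩ := hX.2 x (hX.1 x hx)
  have h1 := huniq x ⟨hx, by
    rw [sub_self]
    exact Submodule.zero_mem _⟩
  have h2 := huniq x' ⟨hx', h⟩
  rw [h1, h2]

/-- the target `F_CT` -/
theorem pf_CT : F_CT := by
  intro K _ _ a b ha hb hab
  have h1 : (1 : 𝓞 K) ∈ a ⊔ b := by rw [hab]; trivial
  obtain ⟨u₂, hu₂, u₁, hu₁, huv⟩ := Submodule.mem_sup.mp h1
  have hsum : u₁ + u₂ = 1 := by rw [add_comm]; exact huv
  have hsumK : (u₁ : K) + (u₂ : K) = 1 := by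
    have h2 := congrArg (algebraMap (𝓞 K) K) hsum
    rw [map_add, map_one] at h2
    exact h2
  refine ⟨u₁, u₂, hu₁, hu₂, hsum, ?_⟩
  intro L hL
  have hab0 : ((a * b : Ideal (𝓞 K)) : FI K) * L ≠ 0 :=
    mul_ne_zero (FractionalIdeal.coeIdeal_ne_zero.2 (mul_ne_zero ha hb)) hL
  have haL : (a : FI K) * L ≠ 0 := mul_ne_zero (FractionalIdeal.coeIdeal_ne_zero.2 ha) hL
  have hbL : (b : FI K) * L ≠ 0 := mul_ne_zero (FractionalIdeal.coeIdeal_ne_zero.2 hb) hL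
  have hd1 : ∀ y ∈ du K (((a * b : Ideal (𝓞 K)) : FI K) * L),
      (u₁ : K) * y ∈ du K ((a : FI K) * L) := by
    intro y hy
    have h2 := smul_mem hu₁ hy
    have h3 : ((a * b : Ideal (𝓞 K)) : FI K) * L = (b : FI K) * ((a : FI K) * L) := by
      rw [FractionalIdeal.coeIdeal_mul]
      ring
    rw [h3, mul_du hb haL] at h2
    exact h2
  have hd2 : ∀ y ∈ du K (((a * b : Ideal (𝓞 K)) : FI K) * L),
      (u₂ : K) * y ∈ du K ((b : FI K) * L) := by
    intro y hy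
    have h2 := smul_mem hu₂ hy
    have h3 : ((a * b : Ideal (𝓞 K)) : FI K) * L = (a : FI K) * ((b : FI K) * L) := by
      rw [FractionalIdeal.coeIdeal_mul]
      ring
    rw [h3, mul_du ha hbL] at h2
    exact h2
  refine ⟨fun y hy => ⟨hd1 y hy, hd2 y hy⟩, ?_⟩
  intro f₁ f₂ hf₁ hf₂ X X₁ X₂ hX hX₁ hX₂ y hy
  have hba : ((b * a : Ideal (𝓞 K)) : FI K) * L = ((a * b : Ideal (𝓞 K)) : FI K) * L := by
    rw [mul_comm b a]
  have hf : ft K X (fun x => f₁ x * f₂ x) y = ∑ x ∈ X, f₁ x * f₂ x * eps K (x * y) := rfl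
  have hg1 : ft K X₁ f₁ ((u₁ : K) * y) = ∑ x ∈ X₁, f₁ x * eps K (x * ((u₁ : K) * y)) := rfl
  have hg2 : ft K X₂ f₂ ((u₂ : K) * y) = ∑ x ∈ X₂, f₂ x * eps K (x * ((u₂ : K) * y)) := rfl
  have hlea : ∀ t ∈ ((a * b : Ideal (𝓞 K)) : FI K) * L, t ∈ (a : FI K) * L := by
    intro t ht
    exact (mul_le_mul_left ((FractionalIdeal.coeIdeal_le_coeIdeal K).2
      (Ideal.mul_le_left : a * b ≤ a)) L) ht
  have hleb : ∀ t ∈ ((a * b : Ideal (𝓞 K)) : FI K) * L, t ∈ (b : FI K) * L := by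
    intro t ht
    exact (mul_le_mul_left ((FractionalIdeal.coeIdeal_le_coeIdeal K).2
      (Ideal.mul_le_right : a * b ≤ b)) L) ht
  have hs := sum_rep hX (f := fun x => f₁ x * f₂ x * eps K (x * y)) (by
      intro x hx t ht
      rw [hf₁ x hx t (hlea t ht), hf₂ x hx t (hleb t ht), add_mul, eps_add,
        eps_of_mem hab0 ht hy, mul_one])
    (X₁ ×ˢ X₂) (fun q => (u₁ : K) * q.1 + (u₂ : K) * q.2) (by
      intro q hq
      obtain ⟨h2, h3⟩ := Finset.mem_product.1 hq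
      exact fadd K _ (smul_mem_FI _ _ (hX₁.1 _ h2)) (smul_mem_FI _ _ (hX₂.1 _ h3))) (by
      rintro ⟨x₁, x₂⟩ hq ⟨x₁', x₂'⟩ hq' h
      obtain ⟨h2, h3⟩ := Finset.mem_product.1 hq
      obtain ⟨h2', h3'⟩ := Finset.mem_product.1 hq'
      simp only at h h2 h3 h2' h3'
      have hL1 := fsub K _ (hX₁.1 _ h2) (hX₁.1 _ h2')
      have hL2 := fsub K _ (hX₂.1 _ h3) (hX₂.1 _ h3')
      have e1 : x₁ = x₁' := by
        refine rep_eq hX₁ h2 h2' ?_
        have h4 := hlea _ h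
        have h5 := fsub K _ hL1 hL2
        have h6 := fadd K _ h4 (smul_mem hu₂ h5)
        have e2 : (u₁ : K) * x₁ + (u₂ : K) * x₂ - ((u₁ : K) * x₁' + (u₂ : K) * x₂') +
            (u₂ : K) * (x₁ - x₁' - (x₂ - x₂')) = x₁ - x₁' := by
          linear_combination (x₁ - x₁') * hsumK
        rw [e2] at h6
        exact h6
      have e3 : x₂ = x₂' := by
        refine rep_eq hX₂ h3 h3' ?_
        have h4 := hleb _ h
        have h5 := fsub K _ hL2 hL1
        have h6 := fadd K _ h4 (smul_mem hu₁ h5)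
        have e2 : (u₁ : K) * x₁ + (u₂ : K) * x₂ - ((u₁ : K) * x₁' + (u₂ : K) * x₂') +
            (u₁ : K) * (x₂ - x₂' - (x₁ - x₁')) = x₂ - x₂' := by
          linear_combination (x₂ - x₂') * hsumK
        rw [e2] at h6
        exact h6
      rw [e1, e3]) (by
      intro x hx
      obtain ⟨x₁, ⟨h2, h3⟩, -⟩ := hX₁.2 x hx
      obtain ⟨x₂, ⟨h4, h5⟩, -⟩ := hX₂.2 x hx
      refine ⟨(x₁, x₂), Finset.mem_product.2 ⟨h2, h4⟩, ?_⟩
      have h6 := smul_mem' hu₁ h3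
      rw [hba] at h6
      have h7 := fadd K _ h6 (smul_mem' hu₂ h5)
      have e2 : (u₁ : K) * (x - x₁) + (u₂ : K) * (x - x₂) =
          x - ((u₁ : K) * x₁ + (u₂ : K) * x₂) := by
        linear_combination x * hsumK
      rw [e2] at h7
      exact h7)
  rw [hf, hg1, hg2, hs, Finset.sum_product, Finset.sum_mul_sum]
  refine Finset.sum_congr rfl fun x₁ h2 => Finset.sum_congr rfl fun x₂ h3 => ?_
  have hx₁ := hX₁.1 _ h2
  have hx₂ := hX₂.1 _ h3
  have v1 : f₁ ((u₁ : K) * x₁ + (u₂ : K) * x₂) = f₁ x₁ := by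
    have h4 := hf₁ x₁ hx₁ _ (smul_mem hu₂ (fsub K _ hx₂ hx₁))
    have e2 : x₁ + (u₂ : K) * (x₂ - x₁) = (u₁ : K) * x₁ + (u₂ : K) * x₂ := by
      linear_combination (-x₁) * hsumK
    rw [e2] at h4
    exact h4
  have v2 : f₂ ((u₁ : K) * x₁ + (u₂ : K) * x₂) = f₂ x₂ := by
    have h4 := hf₂ x₂ hx₂ _ (smul_mem hu₁ (fsub K _ hx₁ hx₂))
    have e2 : x₂ + (u₁ : K) * (x₁ - x₂) = (u₁ : K) * x₁ + (u₂ : K) * x₂ := by
      linear_combination (-x₂) * hsumK
    rw [e2] at h4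
    exact h4
  have v3 : eps K (((u₁ : K) * x₁ + (u₂ : K) * x₂) * y) =
      eps K (x₁ * ((u₁ : K) * y)) * eps K (x₂ * ((u₂ : K) * y)) := by
    rw [← eps_add]
    congr 1
    ring
  rw [v1, v2, v3]
  ring

end Pool.Agent.H77.DF.CT
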