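import Pool.Agent.H77.DF.P2n
import Pool.Agent.H6.TM.P2a
import Pool.Agent.H23.DF.TargetsG

/-!
# The dual sums, friable conductors: row P2
-/

set_option autoImplicit false
set_option linter.unusedVariables false

open NumberField NumberField.InfinitePlace Set Filter Complex
open scoped nonZeroDivisors ENNReal

namespace Pool.Agent.H77.DF.P2

open Pool.Agent.H25.HK Pool.Agent.H23.LB
open Pool.Agent.H27.TM (mc Ep Cls bt th1 Am M_DU M_ET)
open Pool.Agent.H29.DW (dg Rl wv Pos rv)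
open Pool.Agent.H31.SW (DD PP dK)
open Pool.Agent.H23.DM (de D_ZT)
open Pool.Agent.H23.DF
open Pool.Agent.H63.SWL (PP_pos PP_nonneg one_le_PP PP_mono PP_mul PP_const PP_const_mul one_le_dK
  DD_pos zero_memL)
open Pool.Agent.H6.TM.P2 (tail wt_le_one prods)

private theorem nf1 {K : Type} [Field K] [NumberField K] {J : Ideal (𝓞 K)} (hJ : J ≠ ⊥) :
    1 ≤ Nf K J := by
  unfold Nf
  exact_mod_cast Nat.one_le_iff_ne_zero.2 (fun h => hJ (Ideal.absNorm_eq_zero_iff.1 h))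

private theorem emb_le {K : Type} [Field K] [NumberField K] {α : InfinitePlace K → ℝ}
    {v : InfinitePlace K} (hα : 0 < α v ∧ α v ≤ 1 / 10000) (ν : K) :
    ‖v.embedding ν‖ ≤ ‖mc α ν v‖ := by
  unfold mc
  rw [norm_mul, Complex.norm_real, Real.norm_eq_abs]
  have hdg : (1 : ℝ) ≤ dg (rv v) := by
    unfold dg
    split_ifs <;> norm_num
  have hpi := Real.pi_gt_three
  have h5 : 1 ≤ |2 * Real.pi * dg (rv v) / α v| := by
    rw [abs_of_nonneg (div_nonneg (by positivity) hα.1.le), le_div_iff₀ hα.1]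
    have := hα.2
    nlinarith
  exact le_mul_of_one_le_left (norm_nonneg _) h5

/-- (P2) the dual sums. -/
theorem pf_P2 (hDU : M_DU) (hET : M_ET) (hZT : D_ZT) (hPS : F_PS) (hDV : F_DV) (hLN : F_LN) :
    F_P2 := by
  classical
  intro n ε hn hε
  obtain ⟨u, hu, hu1, huε⟩ : ∃ u : ℝ, 0 < u ∧ u ≤ 1 ∧ u ≤ ε :=
    ⟨min ε 1, lt_min hε one_pos, min_le_right _ _, min_le_left _ _⟩
  have hn' : (0 : ℝ) < n := by exact_mod_cast hn
  obtain ⟨e1, he1'⟩ : ∃ e1 : ℝ, e1 = u / (8 * n) := ⟨_, rfl⟩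
  have he10 : 0 < e1 := by rw [he1']; positivity
  have he20 : 0 < u / 24 := by positivity
  obtain ⟨m, hmn, hm⟩ : ∃ m : ℕ, n + 5 ≤ m ∧ 4 / e1 ≤ ((m + 3 : ℕ) : ℝ) - 5 := by
    refine ⟨n + 5 + ⌈4 / e1⌉₊, by omega, ?_⟩
    have := Nat.le_ceil (4 / e1)
    push_cast
    linarith
  refine ⟨m + 3, by omega, fun C₁ hC₁ => ?_⟩
  obtain ⟨Ce, hCe, hET⟩ := hET n (m + 3) C₁ hn hC₁
  obtain ⟨Cz, hCz, hZT⟩ := hZT n (m + 3) hn (by omega)
  obtain ⟨Cp, hCp, hPS⟩ := hPS n m C₁ hn hmn hC₁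
  obtain ⟨Cv, hCv, hDV⟩ := hDV n hn (u / 24) he20
  have hCv0 : 0 ≤ Cv := by linarith
  have hz0 : (0 : ℝ) ≤ 2 ^ n := pow_nonneg zero_le_two n
  have hCc0 : 0 ≤ 1 + Cz * (1 + 2 ^ n) :=
    add_nonneg zero_le_one (mul_nonneg hCz (add_nonneg zero_le_one hz0))
  refine ⟨(Cz * 2 ^ n * Cp * Cv ^ 2 + 1) + Cv * Ce * (1 + Cz * (1 + 2 ^ n)), by positivity, ?_⟩
  intro K _ _ hK l H F M y ω G α τ A ι I c E w D₁ D₃ Z X T₀ Q bb hl hH hF hM hω hCO hD₁ hZ hX hA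
    hG hcls hw hsum hT' hHT hQ hbb
  rcases I.eq_empty_or_nonempty with hI | hI
  · subst hI
    simp
  obtain ⟨hτ, hbt, hbτ, ha0, ha1, hg, hB1, hBT, hT1, haT, haB, haΘ⟩ := prods hK hG
  have hd : 1 ≤ dK K := one_le_dK
  have hd0 : 0 ≤ dK K := zero_le_one.trans hd
  have hDD : 0 < DD M y := DD_pos hM y
  have hT10 : 0 < PP τ := by linarith
  have hB0 : 0 < PP (bt α τ) := by linarith
  have hg0 : 0 < PP G := by linarith
  have hα : ∀ v, 0 < α v ∧ α v ≤ 1 / 10000 := fun v => ⟨(hG v).2.1, (hG v).2.2.1⟩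
  have hD₁0 : 0 ≤ D₁ := zero_le_one.trans hD₁
  have hth : ∀ i j, ∀ v, 1 ≤ th1 α (c i) (c j) v := fun i j v => by
    unfold th1
    have := mul_nonneg (hα v).1.le (norm_nonneg (c i v - c j v))
    linarith
  have hD₃ : 0 ≤ D₃ := by
    obtain ⟨i, hi⟩ := hI
    have h1 := hsum i hi
    have h2 : 0 ≤ ∑ j ∈ I, w i j * ∏ v : InfinitePlace K, th1 α (c i) (c j) v ^ (-(4 : ℝ)) :=
      Finset.sum_nonneg fun j hj => mul_nonneg (hw i hi j hj).1 (Finset.prod_nonneg fun v _ =>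
        Real.rpow_nonneg (zero_le_one.trans (hth i j v)) _)
    have h3 := h2.trans h1
    have h4 : 0 < PP α * PP G := mul_pos ha0 hg0
    have h5 := mul_nonneg h3 h4.le
    rwa [div_mul_cancel₀ _ h4.ne'] at h5
  -- the norms
  have hNH1 : 1 ≤ Nf K H := nf1 hH
  have hNF1 : 1 ≤ Nf K F := nf1 hF
  have hNl1 : 1 ≤ Nf K l := nf1 hl
  obtain ⟨h, hh⟩ : ∃ h : ℝ, h = Nf K H := ⟨_, rfl⟩
  obtain ⟨f, hf⟩ : ∃ f : ℝ, f = Nf K F := ⟨_, rfl⟩
  rw [← hh, ← hf]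
  rw [← hh] at hNH1 hHT
  rw [← hf] at hNF1
  have hh0 : 0 ≤ h := zero_le_one.trans hNH1
  have hf0 : 0 < f := by linarith
  have hT0 : 0 < T₀ := by linarith
  have hhf0 : 0 ≤ h / f := div_nonneg hh0 hf0.le
  -- the parameter `W`
  obtain ⟨W, hW⟩ : ∃ W : ℝ, W = T₀ ^ e1 := ⟨_, rfl⟩
  have hW1 : 1 ≤ W := by rw [hW]; exact Real.one_le_rpow hT' he10.le
  have hWn : W ^ n = T₀ ^ (u / 8) := by
    rw [hW, ← Real.rpow_natCast, ← Real.rpow_mul hT0.le, he1']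
    congr 1
    field_simp
  have hWk : W ^ (-(((m + 3 : ℕ) : ℝ) - 5)) ≤ (T₀ ^ 4)⁻¹ := by
    rw [hW, ← Real.rpow_mul hT0.le, ← Real.rpow_natCast, ← Real.rpow_neg hT0.le]
    refine Real.rpow_le_rpow_of_exponent_le hT' ?_
    rw [div_le_iff₀ he10] at hm
    push_cast at hm ⊢
    linarith
  -- the lattice
  obtain ⟨-, hN0, -, hDDN, -, -⟩ := hLN K H F hH hF
  have hDDN0 := hDDN 0
  simp only [Pi.zero_apply, mul_zero, Finset.sum_const_zero, neg_zero, zero_div, Real.exp_zero,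
    one_mul] at hDDN0
  rw [hK, ← hh, ← hf] at hDDN0
  obtain ⟨N, hN⟩ : ∃ N : FI K, N = Nh H F := ⟨_, rfl⟩
  rw [← hN] at hN0 hDDN0 ⊢
  obtain ⟨hfin, hcard, hsumm, htail⟩ := hZT K hK N α τ W hN0 (fun v => (hα v).1) hW1
  obtain ⟨wt, hwt⟩ : ∃ wt : K → ℝ, wt = fun ν => ∏ v : InfinitePlace K,
    (1 + ‖mc α ν v‖ / bt α τ v) ^ (-((m + 3 : ℕ) : ℝ)) := ⟨_, rfl⟩
  have hw0 : ∀ ν, 0 ≤ wt ν := fun ν => by rw [hwt]; exact (wt_le_one α τ (m + 3) ν).1
  have hw1 : ∀ ν, wt ν ≤ 1 := fun ν => by rw [hwt]; exact (wt_le_one α τ (m + 3) ν).2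
  have hws : Summable fun ν : {ν : K // ν ∈ N} => wt ν := by rw [hwt]; exact hsumm
  have htl : ∑' ν : {ν : K // ν ∈ N ∧ ¬ ∀ v, ‖mc α ν v‖ ≤ W * bt α τ v}, wt ν ≤
      Cz * (W ^ (-(((m + 3 : ℕ) : ℝ) - 5)) * (1 + DD N 0 * (PP α * PP (bt α τ)))) := by
    rw [hwt]
    exact htail
  -- the dual functions
  obtain ⟨E₀, Et, hE₀, hEt, hCo⟩ := hCO.fac
  rw [← hN] at hE₀ hEt
  have hsq : ∀ x : ℂ, ‖x‖ ^ 2 ≤ D₁ → ‖x‖ ≤ D₁ := fun x hx =>
    le_of_sq_le_sq (hx.trans (le_self_pow₀ hD₁ two_ne_zero)) hD₁0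
  have hprod : ∀ i ∈ I, ∀ ν ∈ N, ‖E₀ ν‖ * ‖Et i ν‖ ≤ D₁ := fun i hi ν hν => by
    refine le_of_sq_le_sq ?_ hD₁0
    rw [mul_pow, pow_two D₁]
    exact mul_le_mul (hE₀ ν hν) (hEt i hi ν hν).1 (sq_nonneg _) hD₁0
  have hE : ∀ i ∈ I, ∀ ν, ‖Ep α Q (c i) ν‖ ≤ Ce * wt ν := fun i hi ν => by
    rw [hwt]
    exact (hET K hK α τ (c i) Q hα (hcls i hi) hQ).1 ν
  have hE0 : ∀ i ∈ I, ‖Ep α Q (c i) 0‖ ≤ Ce * (PP (bt α τ))⁻¹ := fun i hi => by
    refine ((hET K hK α τ (c i) Q hα (hcls i hi) hQ).2).trans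
      (mul_le_mul_of_nonneg_left ?_ hCe)
    unfold PP
    rw [← Finset.prod_inv_distrib]
    refine Finset.prod_le_prod (fun v _ => Real.rpow_nonneg (zero_le_one.trans (hbt v)) _)
      fun v _ => ?_
    rw [Real.rpow_neg (zero_le_one.trans (hbt v)), Real.rpow_natCast]
    refine inv_anti₀ (pow_pos (zero_lt_one.trans_le (hbt v)) _)
      (pow_le_pow_right₀ (hbt v) ?_)
    have : v.mult ≤ 2 := by
      unfold InfinitePlace.mult
      split_ifs <;> norm_num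
    omega
  obtain ⟨hAfin, hde⟩ := hDV K hK l H F M y ω α A hl hH hF hM hω (fun v => (hα v).1) hA
  rw [← hh, ← hf, ← hN] at hde
  have hNl0 : 0 < Nf K l := by linarith
  obtain ⟨ρ, hρ⟩ : ∃ ρ : ℝ, ρ = DD M y / Nf K l := ⟨_, rfl⟩
  have hρ0 : 0 ≤ ρ := by rw [hρ]; exact div_nonneg hDD.le hNl0.le
  rw [← hρ]
  have hCρ0 : 0 ≤ Cv * ρ := mul_nonneg hCv0 hρ0
  have hb1 : ∀ ν, ‖bb ν‖ ≤ Cv * ρ * (PP α / f) := fun ν => by
    refine (hbb ν).trans (((hde ν).2.1).trans (le_of_eq ?_))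
    rw [← div_div, ← hρ]
    ring
  have hb2 : ∀ ν, ‖bb ν‖ ≤ Cv * ρ := fun ν => by
    refine (hb1 ν).trans ?_
    refine mul_le_of_le_one_right hCρ0 ?_
    exact div_le_one_of_le₀ (ha1.trans hNF1) hf0.le
  have hDN0 : 0 ≤ DD N 0 := (DD_pos hN0 0).le
  -- the set of the main terms
  obtain ⟨S, hS⟩ : ∃ S : Finset {ν : K // ν ∈ N},
      S = hfin.toFinset.subtype (fun ν => ν ∈ N) := ⟨_, rfl⟩
  have hmem : ∀ ν : {ν : K // ν ∈ N}, ν ∈ S ↔
      (ν.1 ≠ 0 ∧ ∀ v, ‖mc α ν.1 v‖ ≤ W * bt α τ v) := fun ν => by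
    rw [hS, Finset.mem_subtype, Set.Finite.mem_toFinset]
    exact ⟨fun h => h.2, fun h => ⟨ν.2, h⟩⟩
  have haB0 : 0 ≤ PP α * PP (bt α τ) := mul_nonneg ha0.le hB0.le
  have haBt : PP α * PP (bt α τ) ≤ PP τ := by
    calc PP α * PP (bt α τ) ≤ 1 * PP τ := mul_le_mul ha1 hBT hB0.le zero_le_one
      _ = PP τ := one_mul _
  have hScard : (S.card : ℝ) ≤ Cz * 2 ^ n * (dK K * (h / f * (PP α * PP (bt α τ))) *
      T₀ ^ (u / 8)) := by
    have h1 : (S.card : ℝ) ≤ Cz * (DD N 0 * (PP α * PP (bt α τ)) * W ^ n) := by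
      refine le_trans ?_ hcard
      rw [Set.ncard_eq_toFinset_card _ hfin, hS, Finset.card_subtype]
      exact_mod_cast Finset.card_filter_le _ _
    rw [hDDN0, hWn] at h1
    refine h1.trans (le_of_eq ?_)
    ring
  have hmain := hDU ι {ν : K // ν ∈ N} I S (fun ν => bb ν.1 * E₀ ν.1)
    (fun i ν => Et i ν.1 * Ep α Q (c i) ν.1)
    (Cv * Ce * (1 + Cz * (1 + 2 ^ n)) * (ρ * (Z ^ (1 / 2 : ℝ) / (f * PP τ) +
      D₁ * dK K * (1 / T₀ ^ 2)))) ?_ ?_ ?_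
  · -- the sum over `S`
    obtain ⟨P, hP⟩ : ∃ P : ℝ, P = (dK K * T₀ ^ 3) ^ (u / 24) := ⟨_, rfl⟩
    have hP2 : P ^ 2 ≤ dK K * T₀ ^ (u / 4) := by
      rw [hP]
      exact num_P hd hT' hu hu1
    have hS1 : ∑ ν ∈ S, ‖bb ν.1 * E₀ ν.1‖ ^ 2 ≤ D₁ * (Cz * 2 ^ n *
        (dK K * (h / f * (PP α * PP (bt α τ))) * T₀ ^ (u / 8)) * (Cv * P) ^ 2) := by
      have h1 : ∀ ν ∈ S, ‖bb ν.1 * E₀ ν.1‖ ^ 2 ≤ (Cv * P) ^ 2 * D₁ := by
        intro ν hν
        obtain ⟨h2, h3⟩ := (hmem ν).1 hν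
        rw [norm_mul, mul_pow]
        refine mul_le_mul ?_ (hE₀ ν.1 ν.2) (sq_nonneg _) (sq_nonneg _)
        refine pow_le_pow_left₀ (norm_nonneg _) ?_ 2
        refine (hbb ν.1).trans (((hde ν.1).2.2 ν.2 h2).trans ?_)
        refine mul_le_mul_of_nonneg_left ?_ hCv0
        have hpn : 0 ≤ ∏ v : InfinitePlace K, ‖v.embedding ν.1‖ ^ v.mult :=
          Finset.prod_nonneg fun v _ => pow_nonneg (norm_nonneg _) _
        rw [hP]
        refine Real.rpow_le_rpow (mul_nonneg (mul_nonneg hd0 hh0) hpn) ?_ he20.le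
        rw [mul_assoc]
        refine mul_le_mul_of_nonneg_left ?_ hd0
        calc h * ∏ v : InfinitePlace K, ‖v.embedding ν.1‖ ^ v.mult
            ≤ h * PP (fun v => W * τ v) := by
              refine mul_le_mul_of_nonneg_left ?_ hh0
              refine Finset.prod_le_prod (fun v _ => pow_nonneg (norm_nonneg _) _) fun v _ => ?_
              refine pow_le_pow_left₀ (norm_nonneg _) ?_ _
              exact (emb_le (hα v) ν.1).trans ((h3 v).trans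
                (mul_le_mul_of_nonneg_left (hbτ v) (by linarith)))
          _ = W ^ n * (h * PP τ) := by rw [PP_const_mul, hK]; ring
          _ ≤ T₀ * T₀ ^ 2 := by
              refine mul_le_mul ?_ hHT (mul_nonneg hh0 hT10.le) hT0.le
              rw [hWn]
              calc T₀ ^ (u / 8) ≤ T₀ ^ (1 : ℝ) :=
                    Real.rpow_le_rpow_of_exponent_le hT' (by linarith)
                _ = T₀ := Real.rpow_one _
          _ = T₀ ^ 3 := by ring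
      calc ∑ ν ∈ S, ‖bb ν.1 * E₀ ν.1‖ ^ 2 ≤
            ∑ _ν ∈ S, (Cv * P) ^ 2 * D₁ := Finset.sum_le_sum h1
        _ = (S.card : ℝ) * ((Cv * P) ^ 2 * D₁) := by
            rw [Finset.sum_const, nsmul_eq_mul]
        _ ≤ (Cz * 2 ^ n * (dK K * (h / f * (PP α * PP (bt α τ))) * T₀ ^ (u / 8))) *
            ((Cv * P) ^ 2 * D₁) :=
            mul_le_mul_of_nonneg_right hScard (mul_nonneg (sq_nonneg _) hD₁0)
        _ = _ := by ring
    -- the sum over the pairs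
    obtain ⟨Θ, hΘ'⟩ : ∃ Θ : ℝ, Θ = PP (fun v => 1 + 2 * α v * G v ^ 3) ^ (1 / 2 : ℝ) := ⟨_, rfl⟩
    have hΘ : 0 ≤ Θ := by
      rw [hΘ']
      refine Real.rpow_nonneg (PP_nonneg fun v => ?_) _
      obtain ⟨g1, g2, -, -, -⟩ := hG v
      exact add_nonneg zero_le_one (mul_nonneg (mul_nonneg zero_le_two g2.le)
        (pow_nonneg (zero_le_one.trans g1) 3))
    have hS2 : ∑ i ∈ I, ∑ j ∈ I, ‖∑' ν : {ν : K // ν ∈ N}, Et i ν.1 * Ep α Q (c i) ν.1 *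
        (starRingEnd ℂ) (Et j ν.1 * Ep α Q (c j) ν.1)‖ ≤ Cp * (Real.sqrt (dK K) * (h / f) *
        ((I.card : ℝ) * (D₃ / PP G) + (I.card : ℝ) ^ 2 * (X * (Θ / PP (bt α τ))))) := by
      have h1 : ∀ i ∈ I, ∑ j ∈ I, ‖∑' ν : {ν : K // ν ∈ N}, Et i ν.1 * Ep α Q (c i) ν.1 *
          (starRingEnd ℂ) (Et j ν.1 * Ep α Q (c j) ν.1)‖ ≤ Cp * (Real.sqrt (dK K) * (h / f) *
          (D₃ / PP G + (I.card : ℝ) * (X * (Θ / PP (bt α τ))))) := by
        intro i hi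
        have h2 : ∀ j ∈ I, ‖∑' ν : {ν : K // ν ∈ N}, Et i ν.1 * Ep α Q (c i) ν.1 *
            (starRingEnd ℂ) (Et j ν.1 * Ep α Q (c j) ν.1)‖ ≤ Cp * (Real.sqrt (dK K) * (h / f) *
            (PP α * (w i j * ∏ v : InfinitePlace K, th1 α (c i) (c j) v ^ (-(4 : ℝ))) +
            X * (Θ / PP (bt α τ)))) := by
          intro j hj
          obtain ⟨cc, hcc⟩ := hCo i hi j hj
          have h3 := hPS K hK H F (Et i) (Et j) cc (w i j) X D₁ α τ (c i) (c j) Q hH hF hcc hX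
            (fun ν hν => ⟨hsq _ (hEt i hi ν (hN ▸ hν)).1, hsq _ (hEt j hj ν (hN ▸ hν)).1⟩) hα
            (hcls i hi) (hcls j hj) hQ
          rw [← hN, ← hh, ← hf] at h3
          refine h3.trans ?_
          refine mul_le_mul_of_nonneg_left (mul_le_mul_of_nonneg_left (add_le_add ?_ ?_)
            (mul_nonneg (Real.sqrt_nonneg _) hhf0)) hCp
          · rw [mul_left_comm]
            refine mul_le_mul_of_nonneg_left (mul_le_mul_of_nonneg_left ?_ (hw i hi j hj).1)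
              ha0.le
            refine Finset.prod_le_prod
              (fun v _ => Real.rpow_nonneg (zero_le_one.trans (hth i j v)) _) fun v _ => ?_
            refine Real.rpow_le_rpow_of_exponent_le (hth i j v) ?_
            have : (4 : ℝ) ≤ m := by exact_mod_cast (by omega : 4 ≤ m)
            linarith
          · refine mul_le_mul_of_nonneg_left (div_le_div_of_nonneg_right ?_ hB0.le) hX
            rw [hΘ']
            refine Real.rpow_le_rpow (PP_nonneg fun v => zero_le_one.trans (hth i j v)) ?_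
              (by norm_num)
            refine PP_mono (fun v => zero_le_one.trans (hth i j v)) fun v => ?_
            unfold th1
            have h3 := (hw i hi j hj).2 v
            have h4 := mul_le_mul_of_nonneg_left h3 (hα v).1.le
            linarith
        calc ∑ j ∈ I, ‖∑' ν : {ν : K // ν ∈ N}, Et i ν.1 * Ep α Q (c i) ν.1 *
              (starRingEnd ℂ) (Et j ν.1 * Ep α Q (c j) ν.1)‖
            ≤ ∑ j ∈ I, Cp * (Real.sqrt (dK K) * (h / f) *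
              (PP α * (w i j * ∏ v : InfinitePlace K, th1 α (c i) (c j) v ^ (-(4 : ℝ))) +
              X * (Θ / PP (bt α τ)))) := Finset.sum_le_sum h2
          _ = Cp * (Real.sqrt (dK K) * (h / f) * (PP α *
              ∑ j ∈ I, w i j * ∏ v : InfinitePlace K, th1 α (c i) (c j) v ^ (-(4 : ℝ)) +
              (I.card : ℝ) * (X * (Θ / PP (bt α τ))))) := by
              rw [← Finset.mul_sum, ← Finset.mul_sum, Finset.sum_add_distrib,
                ← Finset.mul_sum, Finset.sum_const, nsmul_eq_mul]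
          _ ≤ _ := by
              refine mul_le_mul_of_nonneg_left (mul_le_mul_of_nonneg_left
                (add_le_add ?_ le_rfl) (mul_nonneg (Real.sqrt_nonneg _) hhf0)) hCp
              refine (mul_le_mul_of_nonneg_left (hsum i hi) ha0.le).trans (le_of_eq ?_)
              field_simp
      calc ∑ i ∈ I, ∑ j ∈ I, ‖∑' ν : {ν : K // ν ∈ N}, Et i ν.1 * Ep α Q (c i) ν.1 *
            (starRingEnd ℂ) (Et j ν.1 * Ep α Q (c j) ν.1)‖ ≤ ∑ _i ∈ I, Cp *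
            (Real.sqrt (dK K) * (h / f) *
            (D₃ / PP G + (I.card : ℝ) * (X * (Θ / PP (bt α τ))))) :=
            Finset.sum_le_sum h1
        _ = _ := by
            rw [Finset.sum_const, nsmul_eq_mul]
            ring
    have hfinal := num_prod (C1 := Cz * 2 ^ n) (mul_nonneg hCz hz0) hCp hd hT' hhf0 hD₁ ha0 hB0
      hg hT10.le hΘ (Nat.cast_nonneg I.card) hD₃ hX hu huε hP2 haB (hΘ' ▸ haΘ) hS1 hS2
      (Finset.sum_nonneg fun _ _ => sq_nonneg _)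
      (Finset.sum_nonneg fun _ _ => Finset.sum_nonneg fun _ _ => norm_nonneg _)
    have hcongr : ∑ i ∈ I, ‖∑' ν : {ν : K // ν ∈ N}, bb ν.1 * (E i ν.1 * Ep α Q (c i) ν.1)‖ =
        ∑ i ∈ I, ‖∑' ν : {ν : K // ν ∈ N}, bb ν.1 * E₀ ν.1 *
          (Et i ν.1 * Ep α Q (c i) ν.1)‖ := by
      refine Finset.sum_congr rfl fun i hi => ?_
      congr 1
      refine tsum_congr fun ν => ?_
      rw [(hEt i hi ν.1 ν.2).2]
      ring
    rw [hcongr]
    refine hmain.trans ?_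
    have hA0 : 0 ≤ (I.card : ℝ) ^ (1 / 2 : ℝ) *
        (h / f * ((D₃ * PP τ) ^ (1 / 2 : ℝ) * PP G ^ (-(3 / 2) : ℝ))) +
        (I.card : ℝ) * (h / f * X ^ (1 / 2 : ℝ)) :=
      add_nonneg (mul_nonneg (Real.rpow_nonneg (Nat.cast_nonneg _) _) (mul_nonneg hhf0
        (mul_nonneg (Real.rpow_nonneg (mul_nonneg hD₃ hT10.le) _)
          (Real.rpow_nonneg hg0.le _)))) (mul_nonneg (Nat.cast_nonneg _)
        (mul_nonneg hhf0 (Real.rpow_nonneg hX _)))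
    have hfin2 := num_sum (C1 := Cv * Ce * (1 + Cz * (1 + 2 ^ n))) (R := (I.card : ℝ))
      (U := ρ) (q := Z ^ (1 / 2 : ℝ) / (f * PP τ)) (s := 1 / T₀ ^ 2)
      (mul_nonneg (mul_nonneg hCv0 hCe) hCc0) hD₁ hd
      (Real.one_le_rpow hT' hε.le) (Nat.cast_nonneg _) hρ0
      (div_nonneg (Real.rpow_nonneg hZ _) (mul_nonneg hf0.le hT10.le))
      (by positivity) hA0 (add_nonneg (mul_nonneg (mul_nonneg (mul_nonneg hCz hz0) hCp)
        (sq_nonneg _)) zero_le_one) hfinal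
    exact hfin2
  · -- summability
    intro i hi
    refine Summable.of_nonneg_of_le (fun _ => sq_nonneg _) (fun ν => ?_)
      (hws.mul_left ((D₁ * Ce) ^ 2))
    calc ‖Et i ν.1 * Ep α Q (c i) ν.1‖ ^ 2 ≤ (D₁ * (Ce * wt ν.1)) ^ 2 := by
          rw [norm_mul]
          exact pow_le_pow_left₀ (mul_nonneg (norm_nonneg _) (norm_nonneg _))
            (mul_le_mul (hsq _ (hEt i hi ν.1 ν.2).1) (hE i hi _) (norm_nonneg _) hD₁0) 2
      _ = (D₁ * Ce) ^ 2 * (wt ν.1 * wt ν.1) := by ring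
      _ ≤ (D₁ * Ce) ^ 2 * (wt ν.1 * 1) := by
          refine mul_le_mul_of_nonneg_left ?_ (sq_nonneg _)
          exact mul_le_mul_of_nonneg_left (hw1 _) (hw0 _)
      _ = (D₁ * Ce) ^ 2 * wt ν.1 := by rw [mul_one]
  · intro i hi
    refine Summable.of_norm_bounded (hws.mul_left (Cv * ρ * D₁ * Ce)) fun ν => ?_
    calc ‖bb ν.1 * E₀ ν.1 * (Et i ν.1 * Ep α Q (c i) ν.1)‖ =
          ‖bb ν.1‖ * (‖E₀ ν.1‖ * ‖Et i ν.1‖) * ‖Ep α Q (c i) ν.1‖ := by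
          rw [norm_mul, norm_mul, norm_mul]
          ring
      _ ≤ Cv * ρ * D₁ * (Ce * wt ν.1) :=
          mul_le_mul (mul_le_mul (hb2 _) (hprod i hi ν.1 ν.2)
            (mul_nonneg (norm_nonneg _) (norm_nonneg _)) hCρ0) (hE i hi _) (norm_nonneg _)
            (mul_nonneg hCρ0 hD₁0)
      _ = _ := by ring
  · -- the tail
    intro i hi
    obtain ⟨φ, hφ⟩ : ∃ φ : K → ℂ, φ = fun ν => if ν ∈ N then bb ν * E₀ ν *
      (Et i ν * Ep α Q (c i) ν) else 0 := ⟨_, rfl⟩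
    have hφN : ∀ ν ∈ N, φ ν = bb ν * E₀ ν * (Et i ν * Ep α Q (c i) ν) := fun ν hν => by
      rw [hφ]
      exact if_pos hν
    have hEz : ‖E i 0‖ ≤ Z ^ (1 / 2 : ℝ) := by
      rw [← Real.sqrt_eq_rpow]
      exact Real.le_sqrt_of_sq_le (hCO.zero i hi)
    have h00 : ‖φ 0‖ ≤ Cv * Ce * (ρ * (Z ^ (1 / 2 : ℝ) / (f * PP τ))) := by
      rw [hφN 0 (zero_memL N)]
      have e1 : bb 0 * E₀ 0 * (Et i 0 * Ep α Q (c i) 0) = bb 0 * (E i 0 * Ep α Q (c i) 0) := by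
        rw [(hEt i hi 0 (zero_memL N)).2]
        ring
      rw [e1, norm_mul, norm_mul]
      have hZ0 : 0 ≤ Z ^ (1 / 2 : ℝ) := Real.rpow_nonneg hZ _
      calc ‖bb 0‖ * (‖E i 0‖ * ‖Ep α Q (c i) 0‖) ≤
            Cv * ρ * (PP α / f) * (Z ^ (1 / 2 : ℝ) * (Ce * (PP (bt α τ))⁻¹)) :=
            mul_le_mul (hb1 0) (mul_le_mul hEz (hE0 i hi) (norm_nonneg _) hZ0)
              (mul_nonneg (norm_nonneg _) (norm_nonneg _))
              (mul_nonneg hCρ0 (div_nonneg ha0.le hf0.le))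
        _ = Cv * Ce * ρ * (Z ^ (1 / 2 : ℝ) / f) * (PP α / PP (bt α τ)) := by
            rw [div_eq_mul_inv (PP α) (PP (bt α τ))]
            ring
        _ ≤ Cv * Ce * ρ * (Z ^ (1 / 2 : ℝ) / f) * (1 / PP τ) := by
            refine mul_le_mul_of_nonneg_left ?_ ?_
            · rw [div_le_div_iff₀ hB0 hT10, one_mul]
              exact haT
            · positivity
        _ = _ := by
            field_simp
    have h1 : ∀ ν, ‖φ ν‖ ≤ Cv * ρ * D₁ * Ce * wt ν := fun ν => by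
      by_cases hν : ν ∈ N
      · rw [hφN ν hν]
        calc ‖bb ν * E₀ ν * (Et i ν * Ep α Q (c i) ν)‖ =
              ‖bb ν‖ * (‖E₀ ν‖ * ‖Et i ν‖) * ‖Ep α Q (c i) ν‖ := by
              rw [norm_mul, norm_mul, norm_mul]
              ring
          _ ≤ Cv * ρ * D₁ * (Ce * wt ν) :=
              mul_le_mul (mul_le_mul (hb2 _) (hprod i hi ν hν)
                (mul_nonneg (norm_nonneg _) (norm_nonneg _)) hCρ0) (hE i hi _) (norm_nonneg _)
                (mul_nonneg hCρ0 hD₁0)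
          _ = _ := by ring
      · have h3 : φ ν = 0 := by
          rw [hφ]
          exact if_neg hν
        rw [h3, norm_zero]
        exact mul_nonneg (mul_nonneg (mul_nonneg hCρ0 hD₁0) hCe) (hw0 ν)
    have hcongr : (∑' ν : {ν : {ν : K // ν ∈ N} // ν ∉ S}, bb ν.1.1 * E₀ ν.1.1 *
        (Et i ν.1.1 * Ep α Q (c i) ν.1.1)) =
        ∑' ν : {ν : {ν : K // ν ∈ N} // ν ∉ S}, φ ν.1 :=
      tsum_congr fun ν => (hφN _ ν.1.2).symm
    rw [hcongr]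
    refine (tail N S φ wt
      (fun ν => ∀ v, ‖mc α ν v‖ ≤ W * bt α τ v) hw0 hws h00
      (mul_nonneg (mul_nonneg hCρ0 hD₁0) hCe) h1
      fun ν hν hν0 hPP => hν ((hmem ν).2 ⟨hν0, hPP⟩)).trans ?_
    refine (num_tail hCv0 hCe hCz hD₁ hρ0 hT' hz0 hd hh0 hNF1 haB0 haBt hHT
      (Real.rpow_nonneg (zero_le_one.trans hW1) _) hWk (hDDN0.trans (by ring)) htl).trans ?_
    have hq0 : 0 ≤ Z ^ (1 / 2 : ℝ) / (f * PP τ) :=
      div_nonneg (Real.rpow_nonneg hZ _) (mul_nonneg hf0.le hT10.le)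
    have hs0 : 0 ≤ D₁ * dK K * (1 / T₀ ^ 2) := by positivity
    have hCz1 : 0 ≤ Cz * (1 + 2 ^ n) := mul_nonneg hCz (add_nonneg zero_le_one hz0)
    have hCC : 0 ≤ Cv * Ce := mul_nonneg hCv0 hCe
    have g1 : 0 ≤ Cv * Ce * (Cz * (1 + 2 ^ n)) * (ρ * (Z ^ (1 / 2 : ℝ) / (f * PP τ))) :=
      mul_nonneg (mul_nonneg hCC hCz1) (mul_nonneg hρ0 hq0)
    have g2 : 0 ≤ Cv * Ce * (ρ * (D₁ * dK K * (1 / T₀ ^ 2))) :=
      mul_nonneg hCC (mul_nonneg hρ0 hs0)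
    calc Cv * Ce * (ρ * (Z ^ (1 / 2 : ℝ) / (f * PP τ))) +
          Cv * Ce * (Cz * (1 + 2 ^ n)) * (ρ * (D₁ * dK K * (1 / T₀ ^ 2))) ≤
          Cv * Ce * (ρ * (Z ^ (1 / 2 : ℝ) / (f * PP τ))) +
          Cv * Ce * (Cz * (1 + 2 ^ n)) * (ρ * (D₁ * dK K * (1 / T₀ ^ 2))) +
          (Cv * Ce * (Cz * (1 + 2 ^ n)) * (ρ * (Z ^ (1 / 2 : ℝ) / (f * PP τ))) +
          Cv * Ce * (ρ * (D₁ * dK K * (1 / T₀ ^ 2)))) := by linarith
      _ = _ := by ring

end Pool.Agent.H77.DF.P2
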