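import Pool.Agent.H61.DF.Targets
import Pool.Agent.H55.FC.NAB

/-!
# The fourth moment for real quadratic fields: Abel summation for sums over ideals
-/

set_option autoImplicit false

open MeasureTheory Set Filter NumberField Topology
open scoped Real nonZeroDivisors

namespace Pool.Agent.H77.DF

open Pool.Agent.H31.CN Pool.Agent.H89.FM Pool.Agent.H61.FM Pool.Agent.H89.FC Pool.Agent.H89.DF
open Pool.Agent.H61.DF
open Pool.Agent.H55.FC (lc_zero sum_Icc_lc Un mem_Un sum_Un int_exp tendsto_exp_sq)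

theorem pf_ABSr (hSPT : T_SPTr) : T_ABSr := by
  intro K _ _ σ σ' D f κ ν ψ hD hψ g M c a hc hg' hg ha
  obtain ⟨C, hC, hS⟩ := hSPT
  obtain ⟨hmeas, hbd⟩ := hS K σ σ' D f κ ν ψ hD hψ
  have hM : 0 ≤ M := by
    have h1 := (hg 1 le_rfl).2.1
    have h2 := (norm_nonneg _).trans h1
    have h3 := Real.exp_pos (-(c * 1))
    by_contra h4
    push Not at h4
    nlinarith
  have hmg : AEStronglyMeasurable (deriv g) (volume.restrict (Ioi 1)) :=
    (hg'.mono Ioi_subset_Ici_self).aestronglyMeasurable measurableSet_Ioi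
  have hpt : ∀ x : ℝ, 1 ≤ x → ‖Sc ψ x * deriv g x‖ ≤ C * M * (x ^ 2 * Real.exp (-(c * x))) := by
    intro x hx
    rw [norm_mul]
    calc ‖Sc ψ x‖ * ‖deriv g x‖ ≤ (C * x ^ 2) * (M * Real.exp (-(c * x))) :=
          mul_le_mul (hbd x hx) (hg x hx).2.2 (norm_nonneg _) (by positivity)
      _ = C * M * (x ^ 2 * Real.exp (-(c * x))) := by ring
  have hint : IntegrableOn (fun x : ℝ => Sc ψ x * deriv g x) (Ioi 1) := by
    refine Integrable.mono' ((int_exp hc).const_mul (C * M))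
      (hmeas.aestronglyMeasurable.mul hmg) ?_
    refine (ae_restrict_iff' measurableSet_Ioi).2 (Eventually.of_forall fun x hx => ?_)
    exact hpt x (le_of_lt hx)
  refine ⟨hint, ?_⟩
  have hsum : ∀ t : ℝ, ∑ k ∈ Finset.Icc 0 ⌊t⌋₊, lc ψ k = Sc ψ t := fun t => sum_Icc_lc ψ _
  have hlim : Tendsto (fun n : ℕ => g n * ∑ k ∈ Finset.Icc 0 n, lc ψ k) atTop (𝓝 0) := by
    have h1 := ((tendsto_exp_sq hc).comp tendsto_natCast_atTop_atTop).const_mul (C * M)
    rw [mul_zero] at h1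
    refine squeeze_zero_norm' ?_ h1
    filter_upwards [eventually_ge_atTop 1] with n hn
    have hn1 : (1 : ℝ) ≤ n := by exact_mod_cast hn
    have h2 : ∑ k ∈ Finset.Icc 0 n, lc ψ k = Sc ψ (n : ℝ) := by
      rw [← hsum (n : ℝ), Nat.floor_natCast]
    rw [h2, norm_mul]
    simp only [Function.comp_apply]
    calc ‖g n‖ * ‖Sc ψ n‖ ≤ (M * Real.exp (-(c * n))) * (C * (n : ℝ) ^ 2) :=
          mul_le_mul (hg n hn1).2.1 (hbd n hn1) (norm_nonneg _) (by positivity)
      _ = C * M * ((n : ℝ) ^ 2 * Real.exp (-(c * n))) := by ring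
  have hdom : (fun t : ℝ => deriv g t * ∑ k ∈ Finset.Icc 0 ⌊t⌋₊, lc ψ k) =O[atTop]
      (fun x : ℝ => C * M * (x ^ 2 * Real.exp (-(c * x)))) := by
    refine Asymptotics.IsBigO.of_bound 1 ?_
    filter_upwards [eventually_ge_atTop 1] with t ht
    rw [hsum t, mul_comm (deriv g t), one_mul]
    exact (hpt t ht).trans (le_abs_self _)
  have hmain := tendsto_sum_mul_atTop_nhds_one_sub_integral₀ (f := g) (c := lc ψ) (lc_zero ψ)
    (fun t ht => (hg t ht).1) (hg'.locallyIntegrableOn measurableSet_Ici) hlim hdom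
    ⟨Ioi 1, Ioi_mem_atTop 1, (int_exp hc).const_mul (C * M)⟩
  have hU : Tendsto (Un K) atTop atTop := by
    apply tendsto_atTop_finset_of_monotone
    · intro n n' hnn' I hI
      rw [mem_Un] at hI ⊢
      omega
    · intro I
      exact ⟨nm I, mem_Un.2 le_rfl⟩
  have ha' : Tendsto (fun s : Finset (Ideal (𝓞 K))⁰ => ∑ J ∈ s, ψ J * g (nm J)) atTop
      (𝓝 a) := by
    simpa [HasSum] using ha
  have h1 := ha'.comp hU
  have h2 : Tendsto (fun n : ℕ => ∑ k ∈ Finset.Icc 0 n, g k * lc ψ k) atTop (𝓝 a) := by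
    refine h1.congr fun n => ?_
    exact sum_Un ψ g n
  have h3 := tendsto_nhds_unique h2 hmain
  rw [h3, zero_sub]
  congr 1
  refine setIntegral_congr_fun measurableSet_Ioi fun t _ => ?_
  show deriv g t * ∑ k ∈ Finset.Icc 0 ⌊t⌋₊, lc ψ k = Sc ψ t * deriv g t
  rw [hsum t, mul_comm]

end Pool.Agent.H77.DF
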