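import Pool.Agent.H61.DF.Targets
import Pool.Agent.H95.DR.Targets

/-!
# The fourth moment for real quadratic fields, row NDV: the coefficients are small
-/

set_option autoImplicit false

open MeasureTheory Set Filter NumberField
open scoped Real nonZeroDivisors

namespace Pool.Agent.H77.DF

open Pool.Agent.H31.CN Pool.Agent.H89.FM Pool.Agent.H61.FM Pool.Agent.H89.FC Pool.Agent.H89.DF
open Pool.Agent.H61.DF

theorem pf_DVBr (hNID : Pool.Agent.H95.DR.T_NID) : T_DVBr := by
  intro ε hε
  obtain ⟨C, hC, H⟩ := hNID ε hε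
  refine ⟨C, hC, ?_⟩
  intro K _ _ σ σ' D f κ ν ψ hK hψ n hn
  refine le_trans ?_ (H K hK.rk n hn)
  refine (norm_sum_le _ _).trans ?_
  refine (Finset.sum_le_card_nsmul _ _ 1 ?_).trans (by simp)
  intro I _
  by_cases h : Pool.Agent.H95.CF.Pr K f I
  · rw [hψ.abs I h]
  · rw [hψ.van I h]
    simp

end Pool.Agent.H77.DF
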