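import Pool.Agent.H89.DF.TargetsK
import Pool.Agent.H34.FM.BIV

/-!
# The invariance of the twisted sums at arbitrary points
-/

set_option autoImplicit false

open MeasureTheory Set Filter
open scoped Real Matrix MatrixGroups

namespace Pool.Agent.H77.DF

open Pool.Agent.H31.CN Pool.Agent.H89.FM Pool.Agent.H89.FC Pool.Agent.H89.DF
open Pool.Agent.H34.FM (im mem_im im_im im_one index_im Dv_im gv_ne eg)
open Pool.Agent.H50.CN (det_one mul00 mul01 mul10 mul11)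

/-- the point as a complex number -/
noncomputable def zz (x y : ℝ) : ℂ := (x : ℂ) + (y : ℂ) * Complex.I

/-- the factor of automorphy -/
noncomputable def jz (g : SL(2, ℤ)) (x y : ℝ) : ℂ := (g 0 0 : ℂ) + (g 1 0 : ℂ) * zz x y

theorem det_oneR (g : SL(2, ℤ)) : (g 0 0 : ℝ) * g 1 1 - g 0 1 * g 1 0 = 1 := by
  exact_mod_cast det_one g

theorem jz_re (g : SL(2, ℤ)) (x y : ℝ) : (jz g x y).re = (g 0 0 : ℝ) + g 1 0 * x := by
  simp [jz, zz]

theorem jz_im (g : SL(2, ℤ)) (x y : ℝ) : (jz g x y).im = (g 1 0 : ℝ) * y := by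
  simp [jz, zz]

theorem gd_eq (g : SL(2, ℤ)) (x y : ℝ) : gd g x y = Complex.normSq (jz g x y) := by
  rw [Complex.normSq_apply, jz_re, jz_im]
  unfold Pool.Agent.H89.DF.gd
  ring

theorem gd_pos (g : SL(2, ℤ)) (x : ℝ) {y : ℝ} (hy : 0 < y) : 0 < gd g x y := by
  unfold Pool.Agent.H89.DF.gd
  by_cases h : (g 1 0 : ℝ) = 0
  · have h1 := det_oneR g
    rw [h, mul_zero, sub_zero] at h1
    have h2 : (g 0 0 : ℝ) ≠ 0 := by
      intro h0
      rw [h0, zero_mul] at h1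
      exact zero_ne_one h1
    rw [h]
    have h3 : 0 < (g 0 0 : ℝ) ^ 2 := by positivity
    simpa using h3
  · have h3 : 0 < ((g 1 0 : ℝ) * y) ^ 2 := by positivity
    have h4 := sq_nonneg ((g 0 0 : ℝ) + g 1 0 * x)
    linarith

theorem gy_pos (g : SL(2, ℤ)) (x : ℝ) {y : ℝ} (hy : 0 < y) : 0 < gy g x y :=
  div_pos hy (gd_pos g x hy)

theorem jz_ne (g : SL(2, ℤ)) (x : ℝ) {y : ℝ} (hy : 0 < y) : jz g x y ≠ 0 := by
  have h := gd_pos g x hy
  rw [gd_eq] at h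
  exact Complex.normSq_pos.1 h

theorem zz_g (g : SL(2, ℤ)) (x : ℝ) {y : ℝ} (hy : 0 < y) :
    (g 0 1 : ℂ) + (g 1 1 : ℂ) * zz x y = jz g x y * zz (gx g x y) (gy g x y) := by
  have hN := (gd_pos g x hy).ne'
  have hdet := det_oneR g
  have hgd : gd g x y = ((g 0 0 : ℝ) + g 1 0 * x) ^ 2 + ((g 1 0 : ℝ) * y) ^ 2 := rfl
  apply Complex.ext
  · have h1 : ((g 0 1 : ℂ) + (g 1 1 : ℂ) * zz x y).re = (g 0 1 : ℝ) + g 1 1 * x := by
      simp [zz]
    have h2 : (jz g x y * zz (gx g x y) (gy g x y)).re =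
        ((g 0 0 : ℝ) + g 1 0 * x) * gx g x y - (g 1 0 : ℝ) * y * gy g x y := by
      rw [Complex.mul_re, jz_re, jz_im]
      simp [zz]
    rw [h1, h2]
    unfold gx gy
    field_simp
    rw [hgd]
    linear_combination (-(g 1 0 : ℝ) * y ^ 2) * hdet
  · have h1 : ((g 0 1 : ℂ) + (g 1 1 : ℂ) * zz x y).im = (g 1 1 : ℝ) * y := by
      simp [zz]
    have h2 : (jz g x y * zz (gx g x y) (gy g x y)).im =
        ((g 0 0 : ℝ) + g 1 0 * x) * gy g x y + (g 1 0 : ℝ) * y * gx g x y := by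
      rw [Complex.mul_im, jz_re, jz_im]
      simp [zz]
    rw [h1, h2]
    unfold gx gy
    field_simp
    rw [hgd]
    linear_combination ((g 0 0 : ℝ) + g 1 0 * x) * hdet

theorem lin_g (g : SL(2, ℤ)) (x : ℝ) {y : ℝ} (hy : 0 < y) (v : ℤ × ℤ) :
    ((gv g v).1 : ℂ) + (gv g v).2 * zz x y =
      jz g x y * ((v.1 : ℂ) + v.2 * zz (gx g x y) (gy g x y)) := by
  have h := zz_g g x hy
  have e : ((gv g v).1 : ℂ) + (gv g v).2 * zz x y =
      v.1 * jz g x y + v.2 * ((g 0 1 : ℂ) + (g 1 1 : ℂ) * zz x y) := by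
    unfold gv jz
    push_cast
    ring
  rw [e, h]
  ring

theorem qz_eq (x y : ℝ) (v : ℤ × ℤ) :
    qz x y v = Complex.normSq ((v.1 : ℂ) + v.2 * zz x y) / (2 * y) := by
  unfold qz
  rw [Complex.normSq_apply]
  have h1 : ((v.1 : ℂ) + v.2 * zz x y).re = (v.1 : ℝ) + v.2 * x := by simp [zz]
  have h2 : ((v.1 : ℂ) + v.2 * zz x y).im = (v.2 : ℝ) * y := by simp [zz]
  rw [h1, h2]
  congr 1
  ring

theorem qz_g (g : SL(2, ℤ)) (x : ℝ) {y : ℝ} (hy : 0 < y) (v : ℤ × ℤ) :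
    qz x y (gv g v) = qz (gx g x y) (gy g x y) v := by
  have hN := (gd_pos g x hy).ne'
  rw [qz_eq, qz_eq, lin_g g x hy, map_mul, ← gd_eq]
  unfold gy
  field_simp

theorem an_eq (x y : ℝ) (v : ℤ × ℤ) : an x y v =
    ((v.1 : ℂ) + v.2 * zz x y) / (starRingEnd ℂ) ((v.1 : ℂ) + v.2 * zz x y) := by
  unfold Pool.Agent.H89.FC.an zz
  congr 1
  simp only [map_add, map_mul, Complex.conj_ofReal, Complex.conj_I]
  rw [map_intCast, map_intCast]
  ring

/-- the factor of the twisted sums -/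
noncomputable def jq (g : SL(2, ℤ)) (x y : ℝ) : ℂ := jz g x y / (starRingEnd ℂ) (jz g x y)

theorem jq_norm (g : SL(2, ℤ)) (x : ℝ) {y : ℝ} (hy : 0 < y) : ‖jq g x y‖ = 1 := by
  unfold jq
  rw [norm_div, Complex.norm_conj]
  exact div_self (norm_ne_zero_iff.2 (jz_ne g x hy))

theorem an_g (g : SL(2, ℤ)) (x : ℝ) {y : ℝ} (hy : 0 < y) (v : ℤ × ℤ) :
    an x y (gv g v) = jq g x y * an (gx g x y) (gy g x y) v := by
  rw [an_eq, an_eq, lin_g g x hy, map_mul, mul_div_mul_comm]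
  rfl

theorem Em_im (m : ℤ) (s : ℂ) (n : ℕ) (L : AddSubgroup (ℤ × ℤ)) (g : SL(2, ℤ)) (x : ℝ) {y : ℝ}
    (hy : 0 < y) :
    Em m s n (im g L) x y = jq g x y ^ m * Em m s n L (gx g x y) (gy g x y) := by
  classical
  unfold Em
  rw [← tsum_mul_left, ← (eg g).toEquiv.tsum_eq (fun w : ℤ × ℤ =>
    if w ∈ im g L ∧ w ≠ 0 then an x y w ^ m *
      Kmc m.natAbs 1 s ((qz x y w / n : ℝ) : ℂ) else 0)]
  refine tsum_congr fun v => ?_
  have e1 : (eg g).toEquiv v = gv g v := rfl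
  rw [e1]
  by_cases h : v ∈ L ∧ v ≠ 0
  · rw [if_pos h, if_pos ⟨(mem_im g L v).2 h.1, (gv_ne g v).2 h.2⟩, qz_g g x hy, an_g g x hy,
      mul_zpow, mul_assoc]
  · rw [if_neg h, if_neg (fun h' => h ⟨(mem_im g L v).1 h'.1, (gv_ne g v).1 h'.2⟩), mul_zero]

open Classical in
theorem Bz_im (hFLS : T_FLS) (m : ℤ) (s : ℂ) (α : ℕ → ℂ) (N : ℕ) (Q : QF)
    (g : SL(2, ℤ)) (x : ℝ) {y : ℝ} (hy : 0 < y) :
    jq g x y ^ m * Bz m s α N (act Q g) (gx g x y) (gy g x y) = Bz m s α N Q x y := by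
  unfold Bz
  rw [Finset.mul_sum]
  refine Finset.sum_congr rfl fun n hn => ?_
  have hn1 : 1 ≤ n := by
    unfold Sq at hn
    rw [Finset.mem_filter, Finset.mem_Icc] at hn
    exact hn.1.1
  rw [mul_left_comm, Finset.mul_sum]
  congr 1
  have hmem : ∀ L : AddSubgroup (ℤ × ℤ), im g L ∈ Ls n ↔ L ∈ Ls n := by
    intro L
    rw [(hFLS n _ hn1).1, (hFLS n L hn1).1, index_im]
  refine Finset.sum_nbij' (fun L => im g L) (fun L => im g⁻¹ L) ?_ ?_ ?_ ?_ ?_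
  · intro L hL
    rw [Finset.mem_filter] at hL ⊢
    exact ⟨(hmem L).2 hL.1, (Dv_im g n L Q).1 hL.2⟩
  · intro L hL
    rw [Finset.mem_filter] at hL ⊢
    have e : im g (im g⁻¹ L) = L := by rw [im_im, mul_inv_cancel, im_one]
    refine ⟨(hmem _).1 (by rw [e]; exact hL.1), (Dv_im g n _ Q).2 ?_⟩
    rw [e]
    exact hL.2
  · intro L _
    change im g⁻¹ (im g L) = L
    rw [im_im, inv_mul_cancel, im_one]
  · intro L _
    change im g (im g⁻¹ L) = L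
    rw [im_im, mul_inv_cancel, im_one]
  · intro L _
    exact (Em_im m s n L g x hy).symm

theorem anis_act {p : ℕ} {Q : QF} (g : SL(2, ℤ)) (h : Anis p Q) : Anis p (act Q g) := by
  intro w hw
  rw [Pool.Agent.H50.CN.val_act] at hw
  obtain ⟨h1, h2⟩ := h _ hw
  have hdet := det_one g
  have e1 : w.1 = g 1 1 * (gv g w).1 - g 0 1 * (gv g w).2 := by
    unfold gv
    linear_combination (-w.1) * hdet
  have e2 : w.2 = g 0 0 * (gv g w).2 - g 1 0 * (gv g w).1 := by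
    unfold gv
    linear_combination (-w.2) * hdet
  constructor
  · rw [e1]
    exact dvd_sub (Dvd.dvd.mul_left h1 _) (Dvd.dvd.mul_left h2 _)
  · rw [e2]
    exact dvd_sub (Dvd.dvd.mul_left h2 _) (Dvd.dvd.mul_left h1 _)

theorem geo_act {Q : QF} (g : SL(2, ℤ)) {x y : ℝ} (hy : 0 < y) (h : Geo Q x y) :
    Geo (act Q g) (gx g x y) (gy g x y) := by
  have hN := (gd_pos g x hy).ne'
  have hdet := det_oneR g
  have hgd : gd g x y = ((g 0 0 : ℝ) + g 1 0 * x) ^ 2 + ((g 1 0 : ℝ) * y) ^ 2 := rfl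
  have hgx : gx g x y * gd g x y =
      ((g 0 1 : ℝ) + g 1 1 * x) * ((g 0 0 : ℝ) + g 1 0 * x) + (g 1 1 : ℝ) * g 1 0 * y ^ 2 := by
    unfold gx
    exact div_mul_cancel₀ _ hN
  have hxy : (gx g x y ^ 2 + gy g x y ^ 2) * gd g x y =
      ((g 0 1 : ℝ) + g 1 1 * x) ^ 2 + ((g 1 1 : ℝ) * y) ^ 2 := by
    have h0 : (gx g x y ^ 2 + gy g x y ^ 2) * gd g x y * gd g x y =
        (((g 0 1 : ℝ) + g 1 1 * x) ^ 2 + ((g 1 1 : ℝ) * y) ^ 2) * gd g x y := by
      have h1 : gy g x y * gd g x y = y := by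
        unfold gy
        exact div_mul_cancel₀ _ hN
      have h2 : (gx g x y ^ 2 + gy g x y ^ 2) * gd g x y * gd g x y =
          (gx g x y * gd g x y) ^ 2 + (gy g x y * gd g x y) ^ 2 := by ring
      rw [h2, hgx, h1, hgd]
      linear_combination (-(y ^ 2) * ((g 0 0 : ℝ) * g 1 1 - g 0 1 * g 1 0 + 1)) * hdet
    exact mul_right_cancel₀ hN h0
  have e1 : (((act Q g).1 : ℤ) : ℝ) = Q.1 * (g 0 0 : ℝ) ^ 2 + Q.2.1 * g 0 0 * g 1 0 +
      Q.2.2 * (g 1 0 : ℝ) ^ 2 := by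
    unfold act val
    push_cast
    ring
  have e2 : (((act Q g).2.1 : ℤ) : ℝ) = 2 * Q.1 * g 0 0 * g 0 1 + Q.2.1 * (g 0 0 * g 1 1 +
      g 0 1 * g 1 0) + 2 * Q.2.2 * g 1 0 * g 1 1 := by
    unfold act
    push_cast
    ring
  have e3 : (((act Q g).2.2 : ℤ) : ℝ) = Q.1 * (g 0 1 : ℝ) ^ 2 + Q.2.1 * g 0 1 * g 1 1 +
      Q.2.2 * (g 1 1 : ℝ) ^ 2 := by
    unfold act val
    push_cast
    ring
  unfold Geo at h ⊢
  have h3 : ((act Q g).1 * (gx g x y ^ 2 + gy g x y ^ 2) - (act Q g).2.1 * gx g x y +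
      (act Q g).2.2) * gd g x y = 0 := by
    have h4 : ((act Q g).1 * (gx g x y ^ 2 + gy g x y ^ 2) - (act Q g).2.1 * gx g x y +
        (act Q g).2.2) * gd g x y =
        (act Q g).1 * ((gx g x y ^ 2 + gy g x y ^ 2) * gd g x y) -
          (act Q g).2.1 * (gx g x y * gd g x y) + (act Q g).2.2 * gd g x y := by ring
    rw [h4, hxy, hgx, hgd, e1, e2, e3]
    linear_combination h * ((g 0 0 : ℝ) * g 1 1 - g 0 1 * g 1 0) ^ 2
  exact (mul_eq_zero.1 h3).resolve_right hN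

theorem jz_mul (g h : SL(2, ℤ)) (x : ℝ) {y : ℝ} (hy : 0 < y) :
    jz (g * h) x y = jz g x y * jz h (gx g x y) (gy g x y) := by
  have h1 := zz_g g x hy
  have h2 : jz h (gx g x y) (gy g x y) =
      (h 0 0 : ℂ) + (h 1 0 : ℂ) * zz (gx g x y) (gy g x y) := rfl
  rw [h2, mul_add, mul_left_comm, ← h1]
  unfold jz
  rw [mul00, mul10]
  push_cast
  ring

theorem comp_g (g h : SL(2, ℤ)) (x : ℝ) {y : ℝ} (hy : 0 < y) :
    gx h (gx g x y) (gy g x y) = gx (g * h) x y ∧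
      gy h (gx g x y) (gy g x y) = gy (g * h) x y := by
  have h1 := zz_g g x hy
  have h2 := zz_g h (gx g x y) (gy_pos g x hy)
  have h3 := zz_g (g * h) x hy
  rw [jz_mul g h x hy] at h3
  have h4 : ((((g * h) 0 1 : ℤ)) : ℂ) + (((g * h) 1 1 : ℤ) : ℂ) * zz x y =
      jz g x y * ((h 0 1 : ℂ) + (h 1 1 : ℂ) * zz (gx g x y) (gy g x y)) := by
    rw [mul_add, mul_left_comm (jz g x y), ← h1, mul01, mul11]
    unfold jz
    push_cast
    ring
  rw [h4, h2, ← mul_assoc] at h3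
  have h5 : zz (gx h (gx g x y) (gy g x y)) (gy h (gx g x y) (gy g x y)) =
      zz (gx (g * h) x y) (gy (g * h) x y) :=
    mul_left_cancel₀ (mul_ne_zero (jz_ne g x hy) (jz_ne h _ (gy_pos g x hy))) h3
  have hre : ∀ a b : ℝ, (zz a b).re = a := fun a b => by simp [zz]
  have him : ∀ a b : ℝ, (zz a b).im = b := fun a b => by simp [zz]
  have h6 := congrArg Complex.re h5
  have h7 := congrArg Complex.im h5
  rw [hre, hre] at h6
  rw [him, him] at h7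
  exact ⟨h6, h7⟩

theorem pf_BIVr (hFLS : T_FLS) : T_BIVr := by
  intro m s α N p Q g x y hy
  refine ⟨gd_pos g x hy, gy_pos g x hy, Pool.Agent.H50.CN.dsc_act Q g, anis_act g,
    geo_act g hy, fun h => comp_g g h x hy, ?_⟩
  rw [← Bz_im hFLS m s α N Q g x hy, norm_mul, norm_zpow, jq_norm g x hy, one_zpow, one_mul]

end Pool.Agent.H77.DF
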