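import Pool.Agent.H89.DF.TargetsK
import Pool.Agent.H50.CN.ACT

/-!
# The twisted second moment over arbitrary points on the geodesics of indefinite forms
-/

set_option autoImplicit false

open MeasureTheory Set Filter
open scoped Real Matrix MatrixGroups

namespace Pool.Agent.H77.DF

open Pool.Agent.H31.CN Pool.Agent.H89.FM Pool.Agent.H89.FC Pool.Agent.H89.DF

/-- the translation -/
def tr (j : ℤ) : SL(2, ℤ) := ⟨!![1, j; 0, 1], by simp [Matrix.det_fin_two_of]⟩

theorem tr00 (j : ℤ) : tr j 0 0 = 1 := rfl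

theorem tr01 (j : ℤ) : tr j 0 1 = j := rfl

theorem tr10 (j : ℤ) : tr j 1 0 = 0 := rfl

theorem tr11 (j : ℤ) : tr j 1 1 = 1 := rfl

theorem act_tr (Q : QF) (j : ℤ) : act Q (tr j) = tq j Q := by
  unfold act tq val
  rw [tr00, tr01, tr10, tr11]
  refine Prod.ext ?_ (Prod.ext ?_ ?_)
  · simp only
    ring
  · simp only
    ring
  · simp only
    ring

theorem gy_tr (j : ℤ) (x y : ℝ) : gy (tr j) x y = y := by
  unfold gy Pool.Agent.H89.DF.gd
  rw [tr00, tr10]
  simp

open Classical in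
theorem pf_TMr (hTM1 : T_TM1r) (hRED : T_REDr) (hBIV : T_BIVr) : T_TMr := by
  intro ε hε
  obtain ⟨κ, hκ0, hκ1, δ, hδ, C, k, hC, hmain⟩ := hTM1 ε hε
  refine ⟨κ, hκ0, hκ1, δ, hδ, C, k, hC, ?_⟩
  intro Ω S Q x y w m s Y B p N α hs hY hN1 hN hα hp hB hS hw
  have hg : ∀ i : Ω, ∃ g : SL(2, ℤ), 0 < y i →
      |gx g (x i) (y i)| ≤ 1 / 2 ∧ 1 / 2 ≤ gy g (x i) (y i) := by
    intro i
    by_cases hy : 0 < y i
    · obtain ⟨g, h1⟩ := hRED (x i) (y i) hy
      exact ⟨g, fun _ => h1⟩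
    · exact ⟨1, fun h => absurd h hy⟩
  choose g hg using hg
  have h1 := hmain Ω S (fun i => act (Q i) (g i)) (fun i => gx (g i) (x i) (y i))
    (fun i => gy (g i) (x i) (y i)) w m s Y B p N α hs hY hN1 hN hα hp hB
    (by
      intro i hi
      obtain ⟨h1, h2, h3, h4, h5⟩ := hS i hi
      obtain ⟨-, -, b3, b4, b5, -, -⟩ := hBIV m s α N p (Q i) (g i) (x i) (y i) h3
      refine ⟨b4 h1, ?_, (hg i h3).1, (hg i h3).2, b5 h4, h5⟩
      rw [b3]
      exact h2)
    (by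
      intro R
      refine le_trans ?_ (hw R)
      apply Finset.sum_le_sum_of_subset_of_nonneg
      · intro i hi
        rw [Finset.mem_filter] at hi ⊢
        obtain ⟨hi1, j, hj⟩ := hi
        have h3 := (hS i hi1).2.2.1
        obtain ⟨-, -, -, -, -, b6, -⟩ := hBIV m s α N p (Q i) (g i) (x i) (y i) h3
        refine ⟨hi1, g i * tr j, ?_, ?_⟩
        · rw [← (Pool.Agent.H50.CN.pf_ACT (Q i) (g i) (tr j) 0).2.2.2.1, act_tr]
          exact hj
        · rw [← (b6 (tr j)).2, gy_tr]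
          exact (hg i h3).2
      · intro i hi _
        exact (hS i (Finset.mem_filter.1 hi).1).2.2.2.2)
  refine le_trans (le_of_eq ?_) h1
  refine Finset.sum_congr rfl fun i hi => ?_
  have h3 := (hS i hi).2.2.1
  obtain ⟨-, -, -, -, -, -, b7⟩ := hBIV m s α N p (Q i) (g i) (x i) (y i) h3
  rw [b7]

end Pool.Agent.H77.DF
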