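import Mathlib

/-!
# The dual sums, friable conductors: the numbers
-/

set_option autoImplicit false

namespace Pool.Agent.H77.DF.P2

/-- the divisor bound in the box -/
theorem num_P {d T u : ℝ} (hd : 1 ≤ d) (hT : 1 ≤ T) (hu : 0 < u) (hu1 : u ≤ 1) :
    ((d * T ^ 3) ^ (u / 24)) ^ 2 ≤ d * T ^ (u / 4) := by
  have hT0 : 0 < T := by linarith
  have hd0 : 0 < d := by linarith
  have e1 : ((d * T ^ 3) ^ (u / 24)) ^ 2 = d ^ (u / 12) * T ^ (u / 4) := by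
    rw [← Real.rpow_natCast, ← Real.rpow_mul (by positivity),
      Real.mul_rpow hd0.le (by positivity), ← Real.rpow_natCast T 3, ← Real.rpow_mul hT0.le]
    congr 2 <;> push_cast <;> ring
  rw [e1]
  refine mul_le_mul_of_nonneg_right ?_ (by positivity)
  calc d ^ (u / 12) ≤ d ^ (1 : ℝ) := Real.rpow_le_rpow_of_exponent_le hd (by linarith)
    _ = d := Real.rpow_one d

/-- the product of the two square roots -/
theorem num_prod {C1 Cv Cp d T H D1 a B g t Θ R D3 X P u ε S1 S2 : ℝ} (hC1 : 0 ≤ C1)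
    (hCp : 0 ≤ Cp) (hd : 1 ≤ d) (hT : 1 ≤ T) (hH : 0 ≤ H) (hD1 : 1 ≤ D1) (ha : 0 < a)
    (hB : 0 < B) (hg : 1 ≤ g) (ht : 0 ≤ t) (hΘ : 0 ≤ Θ) (hR : 0 ≤ R) (hD3 : 0 ≤ D3)
    (hX : 0 ≤ X) (hu : 0 < u) (huε : u ≤ ε) (hP2 : P ^ 2 ≤ d * T ^ (u / 4))
    (h1 : a * B * g ^ 2 ≤ t) (h2 : a * Θ ≤ 1)
    (hS1 : S1 ≤ D1 * (C1 * (d * (H * (a * B)) * T ^ (u / 8)) * (Cv * P) ^ 2))
    (hS2 : S2 ≤ Cp * (Real.sqrt d * H * (R * (D3 / g) + R ^ 2 * (X * (Θ / B)))))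
    (hS10 : 0 ≤ S1) (hS20 : 0 ≤ S2) :
    Real.sqrt S1 * Real.sqrt S2 ≤ (C1 * Cp * Cv ^ 2 + 1) * (D1 * d ^ 2 * T ^ ε *
      (R ^ (1 / 2 : ℝ) * (H * ((D3 * t) ^ (1 / 2 : ℝ) * g ^ (-(3 / 2) : ℝ))) +
        R * (H * X ^ (1 / 2 : ℝ)))) := by
  have hT0 : 0 < T := by linarith
  have hd0 : 0 < d := by linarith
  have hg0 : 0 < g := by linarith
  have hD10 : 0 < D1 := by linarith
  obtain ⟨Y, hY⟩ : ∃ Y : ℝ, Y = R ^ (1 / 2 : ℝ) * ((D3 * t) ^ (1 / 2 : ℝ) *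
    g ^ (-(3 / 2) : ℝ)) := ⟨_, rfl⟩
  obtain ⟨V, hV⟩ : ∃ V : ℝ, V = R * X ^ (1 / 2 : ℝ) := ⟨_, rfl⟩
  have hDt : 0 ≤ D3 * t := mul_nonneg hD3 ht
  have hY0 : 0 ≤ Y := by rw [hY]; positivity
  have hV0 : 0 ≤ V := by rw [hV]; positivity
  have hY2 : Y ^ 2 = R * (D3 * t) / g ^ 3 := by
    have a1 : (R ^ (1 / 2 : ℝ)) ^ 2 = R := by
      rw [← Real.rpow_natCast, ← Real.rpow_mul hR]
      norm_num
    have a2 : ((D3 * t) ^ (1 / 2 : ℝ)) ^ 2 = D3 * t := by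
      rw [← Real.rpow_natCast, ← Real.rpow_mul hDt]
      norm_num
    have a3 : (g ^ (-(3 / 2) : ℝ)) ^ 2 = (g ^ 3)⁻¹ := by
      rw [← Real.rpow_natCast, ← Real.rpow_mul hg0.le, ← Real.rpow_natCast g 3,
        ← Real.rpow_neg hg0.le]
      norm_num
    rw [hY, mul_pow, mul_pow, a1, a2, a3, div_eq_mul_inv]
    ring
  have hV2 : V ^ 2 = R ^ 2 * X := by
    have a1 : (X ^ (1 / 2 : ℝ)) ^ 2 = X := by
      rw [← Real.rpow_natCast, ← Real.rpow_mul hX]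
      norm_num
    rw [hV, mul_pow, a1]
  have hsd1 : Real.sqrt d ≤ d := by
    rw [Real.sqrt_le_left hd0.le]
    nlinarith
  have hsd0 : 0 ≤ Real.sqrt d := Real.sqrt_nonneg d
  have hU : d * Real.sqrt d * T ^ (u / 8) * P ^ 2 ≤ d ^ 4 * (T ^ ε) ^ 2 := by
    have e2 : T ^ (u / 8) * T ^ (u / 4) ≤ (T ^ ε) ^ 2 := by
      rw [← Real.rpow_add hT0, ← Real.rpow_natCast, ← Real.rpow_mul hT0.le]
      refine Real.rpow_le_rpow_of_exponent_le hT ?_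
      push_cast
      linarith
    calc d * Real.sqrt d * T ^ (u / 8) * P ^ 2 ≤ d * d * T ^ (u / 8) * (d * T ^ (u / 4)) := by
          gcongr
      _ = d ^ 3 * (T ^ (u / 8) * T ^ (u / 4)) := by ring
      _ ≤ d ^ 4 * (T ^ ε) ^ 2 := by
          refine mul_le_mul (pow_le_pow_right₀ hd (by norm_num)) e2 (by positivity)
            (by positivity)
  have hW : a * B * (R * (D3 / g) + R ^ 2 * (X * (Θ / B))) ≤ Y ^ 2 + V ^ 2 := by
    have e1 : a * B * (R * (D3 / g) + R ^ 2 * (X * (Θ / B))) =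
        R * D3 * (a * B * g ^ 2) / g ^ 3 + R ^ 2 * X * (a * Θ) := by
      field_simp
    rw [e1, hY2, hV2]
    refine add_le_add ?_ ?_
    · refine div_le_div_of_nonneg_right ?_ (by positivity)
      calc R * D3 * (a * B * g ^ 2) ≤ R * D3 * t :=
            mul_le_mul_of_nonneg_left h1 (mul_nonneg hR hD3)
        _ = R * (D3 * t) := by ring
    · calc R ^ 2 * X * (a * Θ) ≤ R ^ 2 * X * 1 :=
            mul_le_mul_of_nonneg_left h2 (mul_nonneg (sq_nonneg R) hX)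
        _ = R ^ 2 * X := mul_one _
  have hbr : 0 ≤ R * (D3 / g) + R ^ 2 * (X * (Θ / B)) := by positivity
  have hC0 : 0 ≤ C1 * Cp * Cv ^ 2 := by positivity
  have hgoal : (C1 * Cp * Cv ^ 2 + 1) * (D1 * d ^ 2 * T ^ ε *
      (R ^ (1 / 2 : ℝ) * (H * ((D3 * t) ^ (1 / 2 : ℝ) * g ^ (-(3 / 2) : ℝ))) +
        R * (H * X ^ (1 / 2 : ℝ)))) =
      (C1 * Cp * Cv ^ 2 + 1) * (D1 * d ^ 2 * T ^ ε * (H * (Y + V))) := by
    rw [hY, hV]
    ring
  rw [hgoal, ← Real.sqrt_mul hS10]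
  have hTε : 0 ≤ T ^ ε := by positivity
  refine Real.sqrt_le_iff.2 ⟨by positivity, ?_⟩
  have hTu : 0 ≤ T ^ (u / 8) := by positivity
  calc S1 * S2 ≤ (D1 * (C1 * (d * (H * (a * B)) * T ^ (u / 8)) * (Cv * P) ^ 2)) *
        (Cp * (Real.sqrt d * H * (R * (D3 / g) + R ^ 2 * (X * (Θ / B))))) :=
        mul_le_mul hS1 hS2 hS20 (by positivity)
    _ = (C1 * Cp * Cv ^ 2) * (D1 * H ^ 2) * ((d * Real.sqrt d * T ^ (u / 8) * P ^ 2) *
        (a * B * (R * (D3 / g) + R ^ 2 * (X * (Θ / B))))) := by ring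
    _ ≤ (C1 * Cp * Cv ^ 2) * (D1 * H ^ 2) * ((d ^ 4 * (T ^ ε) ^ 2) * (Y ^ 2 + V ^ 2)) := by
        refine mul_le_mul_of_nonneg_left ?_ (by positivity)
        exact mul_le_mul hU hW (by positivity) (by positivity)
    _ ≤ (C1 * Cp * Cv ^ 2 + 1) ^ 2 * (D1 ^ 2 * H ^ 2) *
        ((d ^ 4 * (T ^ ε) ^ 2) * (Y + V) ^ 2) := by
        have a1 : C1 * Cp * Cv ^ 2 ≤ (C1 * Cp * Cv ^ 2 + 1) ^ 2 := by nlinarith
        have a2 : D1 * H ^ 2 ≤ D1 ^ 2 * H ^ 2 :=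
          mul_le_mul_of_nonneg_right (by nlinarith) (sq_nonneg H)
        have a3 : Y ^ 2 + V ^ 2 ≤ (Y + V) ^ 2 := by nlinarith [mul_nonneg hY0 hV0]
        exact mul_le_mul (mul_le_mul a1 a2 (by positivity) (by positivity))
          (mul_le_mul_of_nonneg_left a3 (by positivity)) (by positivity) (by positivity)
    _ = ((C1 * Cp * Cv ^ 2 + 1) * (D1 * d ^ 2 * T ^ ε * (H * (Y + V)))) ^ 2 := by ring

/-- the sum of the two parts -/
theorem num_sum {C1 C2 D d Te R U q s A Y : ℝ} (hC1 : 0 ≤ C1) (hD : 1 ≤ D)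
    (hd : 1 ≤ d) (hTe : 1 ≤ Te) (hR : 0 ≤ R) (hU : 0 ≤ U) (hq : 0 ≤ q) (hs : 0 ≤ s)
    (hA : 0 ≤ A) (hC2 : 0 ≤ C2) (hY : Y ≤ C2 * (D * d ^ 2 * Te * A)) :
    R * (C1 * (U * (q + D * d * s))) + Y ≤ (C2 + C1) *
      (D * d ^ 2 * Te * (A + R * (U * (q + s)))) := by
  have hD0 : 0 < D := by linarith
  have hd0 : 0 < d := by linarith
  have hTe0 : 0 < Te := by linarith
  have h1 : q + D * d * s ≤ D * d ^ 2 * Te * (q + s) := by
    have e1 : D * d ≤ D * d ^ 2 * Te := by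
      have : d ≤ d ^ 2 * Te := by
        calc d = d * 1 := (mul_one d).symm
          _ ≤ d * (d * Te) := mul_le_mul_of_nonneg_left
              (one_le_mul_of_one_le_of_one_le hd hTe) hd0.le
          _ = d ^ 2 * Te := by ring
      calc D * d ≤ D * (d ^ 2 * Te) := mul_le_mul_of_nonneg_left this hD0.le
        _ = D * d ^ 2 * Te := by ring
    have e2 : 1 ≤ D * d ^ 2 * Te :=
      (one_le_mul_of_one_le_of_one_le hD hd).trans e1
    calc q + D * d * s ≤ D * d ^ 2 * Te * q + D * d ^ 2 * Te * s :=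
          add_le_add (le_mul_of_one_le_left hq e2) (mul_le_mul_of_nonneg_right e1 hs)
      _ = _ := by ring
  have hm : 0 ≤ D * d ^ 2 * Te := by positivity
  have hRU : 0 ≤ R * U := mul_nonneg hR hU
  have h2 : R * (C1 * (U * (q + D * d * s))) ≤ C1 * (D * d ^ 2 * Te * (R * (U * (q + s)))) := by
    calc R * (C1 * (U * (q + D * d * s))) = C1 * ((R * U) * (q + D * d * s)) := by ring
      _ ≤ C1 * ((R * U) * (D * d ^ 2 * Te * (q + s))) :=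
          mul_le_mul_of_nonneg_left (mul_le_mul_of_nonneg_left h1 hRU) hC1
      _ = _ := by ring
  have h3 : 0 ≤ C2 * (D * d ^ 2 * Te * (R * (U * (q + s)))) := by positivity
  have h4 : 0 ≤ C1 * (D * d ^ 2 * Te * A) := by positivity
  calc R * (C1 * (U * (q + D * d * s))) + Y ≤
        C1 * (D * d ^ 2 * Te * (R * (U * (q + s)))) + C2 * (D * d ^ 2 * Te * A) :=
        add_le_add h2 hY
    _ ≤ C1 * (D * d ^ 2 * Te * (R * (U * (q + s)))) + C2 * (D * d ^ 2 * Te * A) +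
        (C2 * (D * d ^ 2 * Te * (R * (U * (q + s)))) + C1 * (D * d ^ 2 * Te * A)) := by linarith
    _ = _ := by ring

/-- the tail -/
theorem num_tail {Cv Ce Cz D ρ T z d h f a B t w DN X A0 : ℝ} (hCv : 0 ≤ Cv) (hCe : 0 ≤ Ce)
    (hCz : 0 ≤ Cz) (hD : 1 ≤ D) (hρ : 0 ≤ ρ) (hT : 1 ≤ T) (hz : 0 ≤ z) (hd : 1 ≤ d)
    (hh : 0 ≤ h) (hf : 1 ≤ f) (haB : 0 ≤ a * B) (haB1 : a * B ≤ t) (ht : h * t ≤ T ^ 2)
    (hw0 : 0 ≤ w) (hw : w ≤ (T ^ 4)⁻¹) (hDN : DN = z * d * (h / f))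
    (hX : X ≤ Cz * (w * (1 + DN * (a * B)))) :
    A0 + Cv * ρ * D * Ce * X ≤ A0 + Cv * Ce * (Cz * (1 + z)) * (ρ * (D * d * (1 / T ^ 2))) := by
  have hT0 : 0 < T := by linarith
  have hd0 : 0 ≤ d := by linarith
  have hD0 : 0 ≤ D := by linarith
  have h1 : 1 + DN * (a * B) ≤ (1 + z) * d * T ^ 2 := by
    have e1 : h / f * (a * B) ≤ T ^ 2 := by
      calc h / f * (a * B) ≤ h * t :=
            mul_le_mul (div_le_self hh hf) haB1 haB hh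
        _ ≤ T ^ 2 := ht
    have e2 : 1 ≤ d * T ^ 2 := one_le_mul_of_one_le_of_one_le hd (one_le_pow₀ hT)
    rw [hDN]
    calc 1 + z * d * (h / f) * (a * B) = 1 + z * d * (h / f * (a * B)) := by ring
      _ ≤ d * T ^ 2 + z * d * T ^ 2 :=
          add_le_add e2 (mul_le_mul_of_nonneg_left e1 (mul_nonneg hz hd0))
      _ = _ := by ring
  have hDN0 : 0 ≤ 1 + DN * (a * B) := by
    have : 0 ≤ DN := by
      rw [hDN]
      exact mul_nonneg (mul_nonneg hz hd0) (div_nonneg hh (by linarith))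
    have := mul_nonneg this haB
    linarith
  have h2 : w * (1 + DN * (a * B)) ≤ (1 + z) * (d * (1 / T ^ 2)) := by
    calc w * (1 + DN * (a * B)) ≤ (T ^ 4)⁻¹ * ((1 + z) * d * T ^ 2) :=
          mul_le_mul hw h1 hDN0 (by positivity)
      _ = _ := by field_simp
  refine add_le_add le_rfl ?_
  calc Cv * ρ * D * Ce * X ≤ Cv * ρ * D * Ce * (Cz * ((1 + z) * (d * (1 / T ^ 2)))) := by
        refine mul_le_mul_of_nonneg_left (hX.trans (mul_le_mul_of_nonneg_left h2 hCz)) ?_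
        positivity
    _ = _ := by ring

end Pool.Agent.H77.DF.P2
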